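import Pool.Agent.Run7.h741.NM.Asy
import Pool.Agent.N916.GB.Tr

/-!
# NM: the proportion in the integers in the classes modulo `M`
(after `Pool/Agent/N916/GB/Tr.lean` by helper916)
-/

set_option autoImplicit false

open scoped Classical
open Finset Filter

namespace Pool.Agent.Run7.h741.NM

open Pool.Agent.N916.GB (Po eta sum_odd_sq)
open Pool.Agent.Run7.h741.NT (Gd)

theorem cl_iff {M : ℕ} (hM : 2 ∣ M) {K : Finset ℕ} (hK : ∀ b ∈ K, b % 2 = 1) {D : ℕ}
    (hD : Squarefree D) : Cl M K D.primeFactors ↔ D % M ∈ K := by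
  unfold Cl
  rw [Nat.prod_primeFactors_of_squarefree hD]
  constructor
  · exact fun h => h.2
  · intro h
    refine ⟨fun p hp => ?_, h⟩
    obtain ⟨hpp, hpd, _⟩ := Nat.mem_primeFactors.1 hp
    refine ⟨hpp, ?_⟩
    rintro rfl
    have h1 := hK _ h
    rw [Nat.mod_mod_of_dvd D hM] at h1
    omega

theorem card_eq {M : ℕ} (hM : 2 ∣ M) {K : Finset ℕ} (hK : ∀ b ∈ K, b % 2 = 1) (X : ℕ)
    (Q : Finset ℕ → Prop) :
    ((Icc 1 X).filter fun D => Squarefree D ∧ D % M ∈ K ∧ Q D.primeFactors).card =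
      ((SS M K X).filter Q).card := by
  refine Finset.card_bij (fun D _ => D.primeFactors) ?_ ?_ ?_
  · intro D hD
    obtain ⟨h1, h2, h3, h4⟩ := Finset.mem_filter.1 hD
    obtain ⟨h5, h6⟩ := Finset.mem_Icc.1 h1
    refine Finset.mem_filter.2 ⟨Finset.mem_filter.2 ⟨?_, (cl_iff hM hK h2).2 h3, ?_⟩, h4⟩
    · rw [Finset.mem_powerset]
      intro p hp
      have := Nat.le_of_dvd (by omega) (Nat.dvd_of_mem_primeFactors hp)
      exact Finset.mem_range.2 (by omega)
    · rw [Nat.prod_primeFactors_of_squarefree h2]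
      exact h6
  · intro D hD E hE h
    have h2 := (Finset.mem_filter.1 hD).2.1
    have h3 := (Finset.mem_filter.1 hE).2.1
    have h' : D.primeFactors = E.primeFactors := h
    rw [← Nat.prod_primeFactors_of_squarefree h2, ← Nat.prod_primeFactors_of_squarefree h3, h']
  · intro S hS
    obtain ⟨h1, h2⟩ := Finset.mem_filter.1 hS
    obtain ⟨h3, h4, h5⟩ := Finset.mem_filter.1 h1
    have hpr : ∀ p ∈ S, p.Prime := fun p hp => (h4.1 p hp).1
    have hpf : (∏ p ∈ S, p).primeFactors = S := Nat.primeFactors_prod hpr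
    have hsq : Squarefree (∏ p ∈ S, p) := by
      refine Finset.squarefree_prod_of_pairwise_isCoprime (fun p hp q hq hpq => ?_)
        fun p hp => (hpr p hp).squarefree
      show IsRelPrime p q
      rw [← Nat.coprime_iff_isRelPrime]
      exact (Nat.coprime_primes (hpr p hp) (hpr q hq)).mpr hpq
    refine ⟨∏ p ∈ S, p, ?_, hpf⟩
    have hcl : Cl M K (∏ p ∈ S, p).primeFactors := by rw [hpf]; exact h4
    have c1 := (cl_iff hM hK hsq).1 hcl
    refine Finset.mem_filter.2 ⟨Finset.mem_Icc.2 ⟨?_, h5⟩, hsq, c1, ?_⟩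
    · exact Nat.one_le_iff_ne_zero.2 hsq.ne_zero
    · rw [hpf]
      exact h2

/-! ### The positive density -/

/-- the numbers `a` modulo `M` -/
def T' (M a X : ℕ) : Finset ℕ := (Icc 1 X).filter fun n => n % M = a

theorem card_T' {M a : ℕ} (hM : 0 < M) (ha : 0 < a) (ha' : a < M) (X : ℕ) :
    X / M ≤ (T' M a X).card := by
  have h : (range (X / M)).card ≤ (T' M a X).card := by
    apply card_le_card_of_injOn (fun k => M * k + a)
    · intro k hk
      rw [mem_coe, mem_range] at hk
      rw [mem_coe, T', mem_filter, mem_Icc]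
      have h1 : M * k + a ≤ X := by
        have h2 : M * (k + 1) ≤ M * (X / M) := Nat.mul_le_mul_left M hk
        have h3 : M * (X / M) ≤ X := Nat.mul_div_le X M
        have h4 : M * (k + 1) = M * k + M := by ring
        omega
      refine ⟨⟨?_, h1⟩, ?_⟩
      · show 1 ≤ M * k + a
        omega
      · show (M * k + a) % M = a
        rw [Nat.mul_add_mod, Nat.mod_eq_of_lt ha']
    · intro b _ c _ h
      have h1 : M * b + a = M * c + a := h
      exact Nat.eq_of_mul_eq_mul_left hM (by omega)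
  rwa [card_range] at h

theorem card_B {M a : ℕ} (hc : a.Coprime M) (X m : ℕ) :
    ((T' M a X).filter fun n => m * m ∣ n).card ≤ X / (M * (m * m)) + 1 := by
  rw [← card_range (X / (M * (m * m)) + 1)]
  apply card_le_card_of_injOn (fun n => n / (M * (m * m)))
  · intro n hn
    rw [mem_coe, mem_filter, T', mem_filter, mem_Icc] at hn
    rw [mem_coe, mem_range]
    exact Nat.lt_succ_of_le (Nat.div_le_div_right hn.1.1.2)
  · intro n hn n' hn' h
    rw [mem_coe, mem_filter, T', mem_filter, mem_Icc] at hn hn'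
    have h' : n / (M * (m * m)) = n' / (M * (m * m)) := h
    have hcop : Nat.Coprime M (m * m) := by
      have h1 : Nat.Coprime M n := by
        rw [Nat.Coprime, Nat.gcd_rec, hn.1.2]
        exact hc
      exact Nat.Coprime.coprime_dvd_right hn.2 h1
    have h2 : n ≡ n' [MOD M * (m * m)] := by
      rw [← Nat.modEq_and_modEq_iff_modEq_mul hcop]
      refine ⟨?_, ?_⟩
      · show n % M = n' % M
        rw [hn.1.2, hn'.1.2]
      · show n % (m * m) = n' % (m * m)
        rw [Nat.mod_eq_zero_of_dvd hn.2, Nat.mod_eq_zero_of_dvd hn'.2]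
    have h3 : n % (M * (m * m)) = n' % (M * (m * m)) := h2
    rw [← Nat.div_add_mod n (M * (m * m)), ← Nat.div_add_mod n' (M * (m * m)), h', h3]

/-- the squarefree numbers in a class prime to `M` have positive lower density -/
theorem low {M a : ℕ} (hM : 2 ∣ M) (hM0 : 0 < M) (ha' : a < M) (hc : a.Coprime M) (X : ℕ)
    (hX : 100 * M ^ 2 ≤ X) :
    (1 / (4 * M) : ℝ) * X ≤
      (((Icc 1 X).filter fun D => Squarefree D ∧ D % M = a).card : ℝ) := by
  have hM2 : 2 ≤ M := Nat.le_of_dvd hM0 hM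
  have hMr : (2 : ℝ) ≤ M := by exact_mod_cast hM2
  have ha : 0 < a := by
    rcases Nat.eq_zero_or_pos a with h | h
    · subst h
      rw [Nat.coprime_zero_left] at hc
      omega
    · exact h
  have ha2 : a % 2 = 1 := by
    by_contra h
    have h1 : 2 ∣ a := by omega
    have h2 : 2 ∣ Nat.gcd a M := Nat.dvd_gcd h1 hM
    rw [hc] at h2
    omega
  set K := Nat.sqrt X with hK
  have h1 : (T' M a X).filter (fun n => ¬ Squarefree n) ⊆
      (Icc 1 K).biUnion fun k => (T' M a X).filter fun n => (2 * k + 1) * (2 * k + 1) ∣ n := by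
    intro n hn
    rw [mem_filter] at hn
    obtain ⟨hn1, hn2⟩ := hn
    have hn1' := hn1
    rw [T', mem_filter, mem_Icc] at hn1'
    rw [Nat.squarefree_iff_prime_squarefree] at hn2
    push Not at hn2
    obtain ⟨p, hp, hd⟩ := hn2
    have hn2' : n % 2 = 1 := by
      rw [← Nat.mod_mod_of_dvd n hM, hn1'.2]
      exact ha2
    have hodd : p % 2 = 1 := by
      rcases hp.eq_two_or_odd with h | h
      · exfalso
        subst h
        have : 2 ∣ n := (Dvd.intro _ rfl).trans hd
        omega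
      · exact h
    have hp3 : 3 ≤ p := by
      have := hp.two_le
      omega
    rw [mem_biUnion]
    have hle : p * p ≤ X := (Nat.le_of_dvd (by omega) hd).trans hn1'.1.2
    have hle' : p ≤ K := Nat.le_sqrt.2 hle
    refine ⟨p / 2, mem_Icc.2 ⟨by omega, by omega⟩, ?_⟩
    rw [mem_filter]
    have : 2 * (p / 2) + 1 = p := by omega
    rw [this]
    exact ⟨hn1, hd⟩
  have h2 : ((T' M a X).filter (fun n => ¬ Squarefree n)).card ≤
      ∑ k ∈ Icc 1 K, (X / (M * ((2 * k + 1) * (2 * k + 1))) + 1) :=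
    (card_le_card h1).trans (card_biUnion_le.trans (sum_le_sum fun k _ =>
      card_B hc X (2 * k + 1)))
  have h3 : (((T' M a X).filter (fun n => ¬ Squarefree n)).card : ℝ) ≤
      ∑ k ∈ Icc 1 K, ((X : ℝ) / M * (1 / (((2 * k + 1 : ℕ) : ℝ) ^ 2)) + 1) := by
    have h4 : (((T' M a X).filter (fun n => ¬ Squarefree n)).card : ℝ) ≤
        ∑ k ∈ Icc 1 K, (((X / (M * ((2 * k + 1) * (2 * k + 1))) : ℕ) : ℝ) + 1) := by
      exact_mod_cast h2
    refine h4.trans (sum_le_sum fun k _ => ?_)
    have h5 : (((X / (M * ((2 * k + 1) * (2 * k + 1))) : ℕ) : ℝ)) ≤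
        (X : ℝ) / ((M * ((2 * k + 1) * (2 * k + 1)) : ℕ) : ℝ) := Nat.cast_div_le
    have h6 : (X : ℝ) / ((M * ((2 * k + 1) * (2 * k + 1)) : ℕ) : ℝ) =
        (X : ℝ) / M * (1 / (((2 * k + 1 : ℕ) : ℝ) ^ 2)) := by
      push_cast
      rw [div_mul_div_comm, mul_one, pow_two]
    linarith
  rw [sum_add_distrib, ← mul_sum, sum_const, Nat.card_Icc, Nat.add_sub_cancel, nsmul_eq_mul,
    mul_one] at h3
  have h4 := sum_odd_sq K
  have hX0 : (0 : ℝ) ≤ X := Nat.cast_nonneg _
  have h5 : (X : ℝ) / M * ∑ k ∈ Icc 1 K, (1 : ℝ) / (((2 * k + 1 : ℕ) : ℝ) ^ 2) ≤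
      (X : ℝ) / M * (1 / 4) := by
    apply mul_le_mul_of_nonneg_left _ (by positivity)
    have : (0 : ℝ) ≤ 1 / (4 * ((K : ℝ) + 1)) := by positivity
    linarith
  have hMX : M * (10 * M) ≤ X := by nlinarith
  have h6 : (K : ℝ) ≤ X / (10 * M) := by
    have h7 : K * K ≤ X := Nat.sqrt_le X
    have h9 : 10 * M ≤ K := by
      rw [hK]
      exact Nat.le_sqrt.2 (by nlinarith)
    have h10 : (10 * M) * K ≤ X := (Nat.mul_le_mul_right K h9).trans h7
    rw [le_div_iff₀ (by positivity)]
    have : (((10 * M) * K : ℕ) : ℝ) ≤ X := by exact_mod_cast h10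
    push_cast at this
    linarith
  have h7 : (X : ℝ) / M - 1 ≤ ((T' M a X).card : ℝ) := by
    have h8 : (X : ℝ) / M < ((X / M : ℕ) : ℝ) + 1 := by
      rw [div_lt_iff₀ (by positivity)]
      have : X < (X / M + 1) * M := by
        have h9 := Nat.div_add_mod X M
        have h10 := Nat.mod_lt X hM0
        have h11 : (X / M + 1) * M = M * (X / M) + M := by ring
        omega
      exact_mod_cast this
    have h9 : ((X / M : ℕ) : ℝ) ≤ (T' M a X).card := by exact_mod_cast card_T' hM0 ha ha' X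
    linarith
  have h8 : ((T' M a X).filter Squarefree).card + ((T' M a X).filter (fun n => ¬ Squarefree n)).card =
      (T' M a X).card := card_filter_add_card_filter_not _
  have h9 : (((T' M a X).filter Squarefree).card : ℝ) +
      (((T' M a X).filter (fun n => ¬ Squarefree n)).card : ℝ) = (T' M a X).card := by
    exact_mod_cast h8
  have h10 : (T' M a X).filter Squarefree =
      (Icc 1 X).filter fun D => Squarefree D ∧ D % M = a := by
    ext n
    rw [mem_filter, T', mem_filter, mem_filter]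
    tauto
  rw [← h10]
  have h11 : (10 : ℝ) ≤ X / M := by
    rw [le_div_iff₀ (by positivity)]
    have : ((10 * M : ℕ) : ℝ) ≤ X := by
      have h12 : 10 * M ≤ X := by nlinarith
      exact_mod_cast h12
    push_cast at this
    linarith
  have h12 : (X : ℝ) / (10 * M) = (1 / 10) * (X / M) := by
    field_simp
  have h13 : (1 / (4 * M) : ℝ) * X = 1 / 4 * (X / M) := by
    field_simp
  rw [h13]
  rw [h12] at h6
  linarith

/-- **The proportion of the nonsingular matrices among the squarefree numbers in a union `K` of odd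
classes modulo `M`, `8 ∣ M`, one of which is prime to `M`.** -/
theorem dens (M : ℕ) (hM : 8 ∣ M) (hM0 : 0 < M) (a : ℕ) (ha : a = 3 ∨ a = 7) (f : ℕ → ZMod 2)
    (K : Finset ℕ) (hK : ∀ b ∈ K, b < M ∧ b % 2 = 1) (b : ℕ) (hb : b ∈ K) (hc : b.Coprime M) :
    Tendsto (fun X : ℕ => (((Icc 1 X).filter fun n => Squarefree n ∧ n % M ∈ K ∧
      Gd a f n.primeFactors).card : ℝ) /
    (((Icc 1 X).filter fun n => Squarefree n ∧ n % M ∈ K).card : ℝ)) atTop (nhds eta) := by
  have hM2 : 2 ∣ M := Dvd.dvd.trans (by norm_num) hM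
  have hMr : (0 : ℝ) < M := by exact_mod_cast hM0
  rw [Metric.tendsto_atTop]
  intro ε hε
  obtain ⟨X₀, hX₀⟩ := t_DQ M hM hM0 a f K ha (ε / 2 * (1 / (4 * M))) (by positivity)
  refine ⟨max X₀ (100 * M ^ 2), fun X hX => ?_⟩
  have h1 := hX₀ X ((le_max_left _ _).trans hX)
  have e1 := card_eq hM2 (fun b hb => (hK b hb).2) X (Gd a f)
  have e2 := card_eq hM2 (fun b hb => (hK b hb).2) X (fun _ => True)
  rw [Finset.filter_true] at e2
  simp only [and_true] at e2
  rw [← e1, ← e2] at h1
  have h2 := low hM2 hM0 (hK b hb).1 hc X ((le_max_right _ _).trans hX)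
  have h3 : (((Icc 1 X).filter fun D => Squarefree D ∧ D % M = b).card : ℝ) ≤
      (((Icc 1 X).filter fun n => Squarefree n ∧ n % M ∈ K).card : ℝ) := by
    refine Nat.cast_le.2 (card_le_card fun n hn => ?_)
    rw [mem_filter] at hn ⊢
    refine ⟨hn.1, hn.2.1, ?_⟩
    rw [hn.2.2]
    exact hb
  have hX1 : (0 : ℝ) < X := by
    have h4 : 0 < X := by
      have h5 := (le_max_right X₀ (100 * M ^ 2)).trans hX
      have h6 : 0 < 100 * M ^ 2 := by positivity
      omega
    exact_mod_cast h4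
  set L : ℝ := (((Icc 1 X).filter fun n => Squarefree n ∧ n % M ∈ K).card : ℝ) with hL
  have hL0 : 0 < L := by
    have : (0 : ℝ) < 1 / (4 * M) * X := by positivity
    linarith
  rw [Real.dist_eq, div_sub' hL0.ne', abs_div, abs_of_pos hL0, div_lt_iff₀ hL0]
  have h4 : ε / 2 * (1 / (4 * M)) * X ≤ ε / 2 * L := by
    have := h2.trans h3
    calc ε / 2 * (1 / (4 * M)) * X = ε / 2 * (1 / (4 * M) * X) := by ring
      _ ≤ ε / 2 * L := by gcongr
  have h5 : ε / 2 * L < ε * L := by
    apply mul_lt_mul_of_pos_right _ hL0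
    linarith
  calc |(((Icc 1 X).filter fun n => Squarefree n ∧ n % M ∈ K ∧
      Gd a f n.primeFactors).card : ℝ) - L * eta| = |(((Icc 1 X).filter fun n => Squarefree n ∧
        n % M ∈ K ∧ Gd a f n.primeFactors).card : ℝ) - eta * L| := by rw [mul_comm L]
    _ ≤ ε / 2 * (1 / (4 * M)) * X := h1
    _ < ε * L := by linarith

end Pool.Agent.Run7.h741.NM
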