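import Pool.Agent.Run7.h741.NT.Asy
import Pool.Agent.Run7.h741.NM.KEY

/-!
# NM: the final asymptotics for the classes modulo any multiple of `8` (after
`Pool/Agent/N218/GB/Asy.lean` by helper218)
-/

set_option autoImplicit false

open scoped Classical
open Finset Filter

namespace Pool.Agent.Run7.h741.NM

open Pool.Agent.N916.GB (Po SA eta ps S_BIL HB S_EQ CntP S_ME8 S_HAL N8 S_BAD S_FE1)
open Pool.Agent.Y703.CX (sm la jj XX eL zz kk S_SIE eL_tendsto logX_eq HH NN ev_eL one_le_exp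
  HH_ge HH_le HH_pos kk_ge kk_le X_pos one_add_log lin_le kap zz_ge zz_pos kap_nonneg kap_pow kap_le)
open Pool.Agent.N218.GB.Asy (eta_mem Sml sml_of sml_add sml_eps sml_many sml_cut sml_coll
  log_three SA_card cmp)
open Pool.Agent.Run7.h741.NT (Gd S_LA S_BOX S_FE2)

/-- the main error term -/
theorem sml_main {C : ℝ} (hC : 1 ≤ C) (M : ℕ) : Sml fun X => (M * (NN X : ℝ) + M) ^ kk X *
    (3 ^ (9 * kk X ^ 2 + 9) * kap C X) * (X * (1 + Real.log X)) := by
  apply sml_of (C := 4 * C) (a := 1) (by norm_num)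
  filter_upwards [ev_eL (20000 + 4 * M)] with X hX
  set l := eL X with hl
  have hM0 : (0 : ℝ) ≤ M := Nat.cast_nonneg _
  have h0 : 0 < eL X := by linarith
  have h1 : 1 ≤ eL X := by linarith
  have hX0 : (0 : ℝ) ≤ X := Nat.cast_nonneg _
  have hN : M * (NN X : ℝ) + M ≤ Real.exp (5 * l) := by
    have h2 : (NN X : ℝ) ≤ HH X * Real.log X + 1 := by
      unfold NN
      push_cast
      have := Nat.floor_le (a := (HH X : ℝ) * Real.log X)
        (mul_nonneg (Nat.cast_nonneg _) (Real.log_natCast_nonneg X))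
      linarith
    have h3 : (HH X : ℝ) * Real.log X ≤ 2 * Real.exp (4 * l) := by
      rw [logX_eq h0]
      calc (HH X : ℝ) * Real.exp (eL X) ≤ 2 * Real.exp (3 * eL X) * Real.exp (eL X) :=
            mul_le_mul_of_nonneg_right (HH_le h0) (Real.exp_pos _).le
        _ = 2 * Real.exp (4 * l) := by
            rw [mul_assoc, ← Real.exp_add]
            congr 2
            rw [hl]
            ring
    have h4 : 1 ≤ Real.exp (4 * l) := one_le_exp (by linarith)
    have h5 : (4 * M : ℝ) ≤ Real.exp l := by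
      have := Real.add_one_le_exp l
      linarith
    have h6 : Real.exp (5 * l) = Real.exp (4 * l) * Real.exp l := by
      rw [← Real.exp_add]; congr 1; ring
    rw [h6]
    have h7 : (NN X : ℝ) + 1 ≤ 4 * Real.exp (4 * l) := by linarith
    calc M * (NN X : ℝ) + M = M * ((NN X : ℝ) + 1) := by ring
      _ ≤ M * (4 * Real.exp (4 * l)) := mul_le_mul_of_nonneg_left h7 hM0
      _ = Real.exp (4 * l) * (4 * M) := by ring
      _ ≤ Real.exp (4 * l) * Real.exp l := mul_le_mul_of_nonneg_left h5 (Real.exp_pos _).le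
  have hkk := kk_le h1
  have hkk0 : (0 : ℝ) ≤ kk X := Nat.cast_nonneg _
  have hA : (M * (NN X : ℝ) + M) ^ kk X ≤ Real.exp (55 * l ^ 2) := by
    calc (M * (NN X : ℝ) + M) ^ kk X ≤ (Real.exp (5 * l)) ^ kk X := by gcongr
      _ = Real.exp (kk X * (5 * l)) := (Real.exp_nat_mul _ _).symm
      _ ≤ Real.exp (55 * l ^ 2) := by
          apply Real.exp_le_exp.2
          nlinarith
  have hB : (3 : ℝ) ^ (9 * kk X ^ 2 + 9) ≤ Real.exp (1210 * l ^ 2) := by
    have e : (3 : ℝ) ^ (9 * kk X ^ 2 + 9) = Real.exp ((9 * (kk X : ℝ) ^ 2 + 9) * Real.log 3) := by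
      rw [mul_comm (9 * (kk X : ℝ) ^ 2 + 9) (Real.log 3), Real.exp_mul, Real.exp_log (by norm_num)]
      rw [← Real.rpow_natCast]
      congr 1
      push_cast
      ring
    rw [e]
    apply Real.exp_le_exp.2
    have h2 := log_three
    have h3 : (kk X : ℝ) ^ 2 ≤ 121 * l ^ 2 := by nlinarith
    have h4 : 0 ≤ (kk X : ℝ) ^ 2 := sq_nonneg _
    have h5 : (9 * (kk X : ℝ) ^ 2 + 9) * Real.log 3 ≤ (9 * (kk X : ℝ) ^ 2 + 9) * 1.1 :=
      mul_le_mul_of_nonneg_left h2 (by positivity)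
    have h6 : 1 ≤ l ^ 2 := one_le_pow₀ h1
    linarith
  have hK := kap_le hC h1
  have hLg := one_add_log h0
  have hmain : (M * (NN X : ℝ) + M) ^ kk X * (3 ^ (9 * kk X ^ 2 + 9) * kap C X) *
      (X * (1 + Real.log X)) ≤ Real.exp (55 * l ^ 2) * (Real.exp (1210 * l ^ 2) *
        (2 * C * Real.exp (-l ^ 3 / 12))) * (X * (2 * Real.exp l)) := by
    have := kap_nonneg hC X
    have : 0 ≤ 1 + Real.log X := by
      have := Real.log_natCast_nonneg X
      linarith
    gcongr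
  refine hmain.trans ?_
  have e : Real.exp (55 * l ^ 2) * (Real.exp (1210 * l ^ 2) *
        (2 * C * Real.exp (-l ^ 3 / 12))) * (X * (2 * Real.exp l)) =
      4 * C * (X * Real.exp (55 * l ^ 2 + 1210 * l ^ 2 + -l ^ 3 / 12 + l)) := by
    rw [Real.exp_add, Real.exp_add, Real.exp_add]
    ring
  rw [e]
  have h9 : 55 * l ^ 2 + 1210 * l ^ 2 + -l ^ 3 / 12 + l ≤ -1 * l := by
    have h10 : 20000 * l ^ 2 ≤ l ^ 3 := by
      have : l ^ 3 = l * l ^ 2 := by ring
      rw [this]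
      exact mul_le_mul_of_nonneg_right (by linarith) (sq_nonneg l)
    have h11 : l ≤ l ^ 2 := by nlinarith
    linarith
  have h11 := Real.exp_le_exp.2 h9
  have hC0 : (0 : ℝ) ≤ 4 * C := by linarith
  gcongr

theorem SS_sub (M : ℕ) (K : Finset ℕ) (X : ℕ) : SS M K X ⊆ SA X := by
  intro S hS
  unfold SS SA at *
  rw [mem_filter] at hS ⊢
  exact ⟨hS.1, hS.2.1.1, hS.2.2⟩

/-- the sets outside the regular part -/
theorem out_sub (M a : ℕ) (K : Finset ℕ) (X z H k V : ℕ) :
    SS M K X \ ((RR M a K X z H k V).filter fun S => N8 (sm z S) (la z S)) ⊆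
      ((((((SA X).filter fun S => k < S.card) ∪
      ((SA X).filter fun S => S.card ≤ k ∧
        X < (∏ p ∈ sm z S, p) * ∏ p ∈ la z S, XX H (jj H p))) ∪
      ((SA X).filter fun S => ¬ Set.InjOn (jj H) (la z S : Set ℕ))) ∪
      ((SA X).filter fun S => ((la z S).filter fun p => p % 8 = a).card <
        2 * (sm z S).card + V)) ∪
      ((SA X).filter fun S => S.card ≤ k ∧ ¬ N8 (sm z S) (la z S))) ∪
      ((SA X).filter fun S => ∀ p ∈ la z S, p % 8 ≠ 5 % 8) := by
  intro S hS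
  rw [Finset.mem_sdiff, Finset.mem_filter] at hS
  obtain ⟨h1', h2⟩ := hS
  have h1 := SS_sub M K X h1'
  simp only [mem_union, mem_filter]
  by_contra hc
  push Not at hc
  obtain ⟨⟨⟨⟨⟨c1, c2⟩, c3⟩, c4⟩, c5⟩, c7⟩ := hc
  have d1 : S.card ≤ k := c1 h1
  have d2 := c2 h1 d1
  have d3 := c3 h1
  have d4 := c4 h1
  have d5 := c5 h1 d1
  obtain ⟨p5, hp5, hp5'⟩ := c7 h1
  apply h2
  refine ⟨?_, d5⟩
  unfold RR
  rw [mem_filter]
  exact ⟨h1', d3, d1, d2, d4, p5, hp5, by simpa using hp5'⟩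

/-- FINAL: the proportion of the good sets -/
def S_DQ : Prop := ∀ (M : ℕ), 8 ∣ M → 0 < M → ∀ (a : ℕ) (f : ℕ → ZMod 2) (K : Finset ℕ),
  (a = 3 ∨ a = 7) → ∀ ε : ℝ, 0 < ε → ∃ X₀ : ℕ, ∀ X : ℕ, X₀ ≤ X →
  |(((SS M K X).filter (Gd a f)).card : ℝ) - eta * ((SS M K X).card : ℝ)| ≤ ε * X

/-- **The proportion of the good sets, from the parts.** -/
theorem t_DQ' (h1 : S_BIL) (h3 : S_EQ) (h4 : S_LA) (h5 : S_BOX) (hK : S_KEY) (hC : CntP)
    (hS : S_SIE) (hH : S_HAL) (hM : S_ME8) (hB : S_BAD) (hF1 : S_FE1) (hF2 : S_FE2) : S_DQ := by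
  intro M hM8 hM0 a f K ha ε hε
  obtain ⟨V, C, hC1, hkey⟩ := hK h1 h3 h4 h5 (ε / 2) (by linarith)
  have s1 := sml_many hC
  have s2 := sml_cut hC
  have s3 := sml_coll hC
  have s4 := sml_eps (hF2 hS hM a (by omega) (by omega) V)
  have s5 := sml_eps (hB hS hH hM)
  have s7 := sml_eps (hF1 hS hM 5 (by norm_num))
  have s8 := sml_main hC1 M
  have stot := sml_add (sml_add (sml_add (sml_add (sml_add (sml_add s1 s2) s3) s4) s5)
    s7) s8
  have hev := stot (ε / 2) (by linarith)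
  have hev2 : ∀ᶠ X : ℕ in atTop, |(((SS M K X).filter (Gd a f)).card : ℝ) -
      eta * ((SS M K X).card : ℝ)| ≤ ε * X := by
    filter_upwards [hev, ev_eL 1] with X hX hl
    have hl0 : 0 < eL X := by linarith
    have hXp := X_pos hl0
    have hNN : (HH X : ℝ) * Real.log X < NN X := by
      unfold NN
      push_cast
      exact Nat.lt_floor_add_one _
    have hmain := hkey M hM8 hM0 a f K ha X (zz X) (HH X) (kk X) (NN X) (kap C X) hXp (HH_pos hl0)
      (zz_pos hl) (kap_nonneg hC1 X) (kap_pow hC1 hl) hNN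
    set T := (RR M a K X (zz X) (HH X) (kk X) V).filter fun S => N8 (sm (zz X) S) (la (zz X) S)
      with hT
    have hTG : (RR M a K X (zz X) (HH X) (kk X) V).filter
        (fun S => N8 (sm (zz X) S) (la (zz X) S) ∧ Gd a f S) = T.filter (Gd a f) := by
      rw [hT, filter_filter]
    rw [hTG] at hmain
    have hTS : T ⊆ SS M K X := (filter_subset _ _).trans (filter_subset _ _)
    have hRS : ((RR M a K X (zz X) (HH X) (kk X) V).card : ℝ) ≤ X := by
      exact_mod_cast (card_le_card ((filter_subset _ _).trans (SS_sub M K X))).trans (SA_card X)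
    have hcmp := cmp (Gd a f) T (SS M K X) hTS eta eta_mem.1 eta_mem.2
    have hout : ((SS M K X \ T).card : ℝ) ≤
        ((((((SA X).filter fun S => kk X < S.card).card : ℝ) +
        (((SA X).filter fun S => S.card ≤ kk X ∧
          X < (∏ p ∈ sm (zz X) S, p) * ∏ p ∈ la (zz X) S, XX (HH X) (jj (HH X) p)).card : ℝ)) +
        (((SA X).filter fun S => ¬ Set.InjOn (jj (HH X)) (la (zz X) S : Set ℕ)).card : ℝ)) +
        (((SA X).filter fun S => ((la (zz X) S).filter fun p => p % 8 = a).card <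
          2 * (sm (zz X) S).card + V).card : ℝ) +
        (((SA X).filter fun S => S.card ≤ kk X ∧ ¬ N8 (sm (zz X) S) (la (zz X) S)).card : ℝ)) +
        (((SA X).filter fun S => ∀ p ∈ la (zz X) S, p % 8 ≠ 5 % 8).card : ℝ) := by
      have g := card_le_card (out_sub M a K X (zz X) (HH X) (kk X) V)
      rw [← hT] at g
      have g2 := (g.trans (card_union_le _ _)).trans (Nat.add_le_add_right ((card_union_le _ _).trans
        (Nat.add_le_add_right ((card_union_le _ _).trans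
        (Nat.add_le_add_right ((card_union_le _ _).trans
        (Nat.add_le_add_right (card_union_le _ _) _)) _)) _)) _)
      exact_mod_cast g2
    have g1 : ε / 2 * ((RR M a K X (zz X) (HH X) (kk X) V).card : ℝ) ≤ ε / 2 * X :=
      mul_le_mul_of_nonneg_left hRS (by positivity)
    linarith
  obtain ⟨X₀, h0⟩ := eventually_atTop.1 hev2
  exact ⟨X₀, fun X hX => h0 X hX⟩

/-- **The proportion of the good sets is `η = (1 - 1/2) (1 - 1/4) (1 - 1/8) ⋯`.** -/
theorem t_DQ : S_DQ :=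
  t_DQ' Pool.Agent.N19.GB.t_BIL Pool.Agent.N19.GB.t_EQ Pool.Agent.Run7.h741.NT.t_LA
    Pool.Agent.Run7.h741.NT.t_BOX t_KEY
    Pool.Agent.N502.GB.CNT.t_CNT Pool.Agent.Y488.CX.t_SIE Pool.Agent.N148.GB.t_HAL
    Pool.Agent.N19.GB.t_ME8 Pool.Agent.N148.GB.t_BAD Pool.Agent.N502.GB.FE1.t_FE1
    Pool.Agent.Run7.h741.NT.FE2.t_FE2

end Pool.Agent.Run7.h741.NM
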